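import Pool.Agent.Lib_MP_eb89b3_co.Sound

/-!
MP_eb89b3_co: the counterexample with a factor `568 / 569`.
-/

set_option autoImplicit false

namespace Pool.Agent.PMMSalpha

open Pool.Agent.PMMS

/-- `a` is less than `b`, and at most `568 / 569` of it -/
def lessA (a b : ℕ) : Bool := Nat.blt a b && Nat.ble (569 * a) (568 * b)

/-- some agent has at most `568 / 569` of the pairwise maximin share -/
def tstA (x y z a b c : ℕ) : Bool :=
  lessA a (nu 0 z) || (lessA a (nu 0 y) || (lessA b (nu 1 z) || (lessA b (nu 1 x) ||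
    (lessA c (nu 2 y) || lessA c (nu 2 x)))))

/-- run through all allocations -/
def chkA : ℕ → ℕ → ℕ → ℕ → ℕ → ℕ → ℕ → Bool
  | 0, x, y, z, a, b, c => tstA x y z a b c
  | n + 1, x, y, z, a, b, c =>
    chkA n (x + 2 ^ n) y z (a + w 0 n) b c && (chkA n x (y + 2 ^ n) z a (b + w 1 n) c &&
      chkA n x y (z + 2 ^ n) a b (c + w 2 n))

theorem chkA_ok : chkA 9 0 0 0 0 0 0 = true := by decide +kernel

lemma chkA_spec (A : ℕ → ℕ) (hA : ∀ g, A g = 0 ∨ A g = 1 ∨ A g = 2) (n : ℕ) :
    ∀ x y z a b c, chkA n x y z a b c = true →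
      tstA (x + mk A 0 n) (y + mk A 1 n) (z + mk A 2 n) (a + sk A 0 n) (b + sk A 1 n)
        (c + sk A 2 n) = true := by
  induction n with
  | zero =>
    intro x y z a b c h
    simpa [mk, sk, chkA] using h
  | succ n ih =>
    intro x y z a b c h
    rw [chkA, Bool.and_eq_true, Bool.and_eq_true] at h
    obtain ⟨h0, h1, h2⟩ := h
    rw [mk_succ, mk_succ, mk_succ, sk_succ, sk_succ, sk_succ]
    rcases hA n with h | h | h
    · have := ih _ _ _ _ _ _ h0
      simpa [h, add_assoc] using this
    · have := ih _ _ _ _ _ _ h1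
      simpa [h, add_assoc] using this
    · have := ih _ _ _ _ _ _ h2
      simpa [h, add_assoc] using this

lemma violA (A : Fin 9 → Fin 3) (i j k : Fin 3) (hij : i ≠ j) (hik : i ≠ k) (hjk : j ≠ k)
    (h0 : sk (ext A) i 9 < nu i (mk (ext A) k 9))
    (h : 569 * sk (ext A) i 9 ≤ 568 * nu i (mk (ext A) k 9)) :
    ∃ T ⊆ Finset.univ.filter (fun g => A g = i ∨ A g = j),
      ((∑ g ∈ Finset.univ.filter (fun g => A g = i), w i g) < ∑ g ∈ T, w i g ∧
        569 * (∑ g ∈ Finset.univ.filter (fun g => A g = i), w i g) ≤ 568 * ∑ g ∈ T, w i g) ∧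
      (∑ g ∈ Finset.univ.filter (fun g => A g = i), w i g) <
        ∑ g ∈ Finset.univ.filter (fun g => A g = i ∨ A g = j) \ T, w i g ∧
      569 * (∑ g ∈ Finset.univ.filter (fun g => A g = i), w i g) ≤
        568 * ∑ g ∈ Finset.univ.filter (fun g => A g = i ∨ A g = j) \ T, w i g := by
  set z := mk (ext A) k 9 with hz
  have hz512 : z < 512 := mk_lt (ext A) k 9
  have hc := certAll_spec 512 cert_ok z hz512 i i.2
  rw [cert1, Bool.and_eq_true, Bool.and_eq_true, Nat.beq_eq, Nat.ble_eq, Nat.ble_eq] at hc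
  obtain ⟨c1, c2, c3⟩ := hc
  have hs : (∑ g ∈ Finset.univ.filter (fun g => A g = i), w i g) = sk (ext A) i 9 := by
    rw [Finset.sum_filter, sk, ← Fin.sum_univ_eq_sum_range
      (fun g => if ext A g = i then w i g else 0)]
    apply Finset.sum_congr rfl
    intro g _
    rw [ext_fin]
    simp [Fin.ext_iff]
  have hbit : ∀ g : Fin 9, z.testBit g = decide (A g = k) := by
    intro g
    rw [hz, mk_testBit _ _ _ _ g.2, ext_fin]
    simp [Fin.ext_iff]
  have hdis : ∀ g : Fin 9, (tt i z).testBit g = true → A g ≠ k := by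
    intro g hg hAk
    have h1 : (tt i z &&& z).testBit g = true := by
      rw [Nat.testBit_and, hg, hbit, hAk]
      simp
    rw [c1] at h1
    simp at h1
  have htri : ∀ a : Fin 3, a ≠ k → a = i ∨ a = j := by
    intro a ha
    have := a.2
    have := i.2
    have := j.2
    have := k.2
    simp only [ne_eq, Fin.ext_iff] at *
    omega
  refine ⟨Finset.univ.filter (fun g => (tt i z).testBit g = true), ?_, ?_, ?_⟩
  · intro g hg
    rw [Finset.mem_filter] at hg ⊢
    exact ⟨Finset.mem_univ _, htri _ (hdis g hg.2)⟩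
  · rw [hs]
    suffices h5 : valR i (tt i z) 9 =
        ∑ g ∈ Finset.univ.filter (fun g : Fin 9 => (tt i z).testBit g = true), w i g by
      rw [h5] at c2
      exact ⟨lt_of_lt_of_le h0 c2, h.trans (Nat.mul_le_mul_left _ c2)⟩
    rw [valR_eq, Finset.sum_filter, ← Fin.sum_univ_eq_sum_range
      (fun g => if (tt i z).testBit g = true then w i g else 0)]
  · rw [hs]
    have hset : Finset.univ.filter (fun g => A g = i ∨ A g = j) \
        Finset.univ.filter (fun g : Fin 9 => (tt i z).testBit g = true) =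
        Finset.univ.filter (fun g : Fin 9 => (511 ^^^ (z ||| tt i z)).testBit g = true) := by
      ext g
      rw [Finset.mem_sdiff, Finset.mem_filter, Finset.mem_filter, Finset.mem_filter,
        Nat.testBit_xor, Nat.testBit_or, testBit_511 g g.2, hbit]
      simp only [Finset.mem_univ, true_and]
      constructor
      · rintro ⟨h1, h2⟩
        have h3 : A g ≠ k := by
          rcases h1 with h1 | h1
          · rw [h1]; exact hik
          · rw [h1]; exact hjk
        simp [h3, h2]
      · intro h1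
        have h2 : A g ≠ k ∧ ¬ (tt i z).testBit g = true := by
          constructor
          · intro h3
            simp [h3] at h1
          · intro h3
            simp [h3] at h1
        exact ⟨htri _ h2.1, h2.2⟩
    suffices h5 : valR i (511 ^^^ (z ||| tt i z)) 9 =
        ∑ g ∈ Finset.univ.filter (fun g : Fin 9 => (511 ^^^ (z ||| tt i z)).testBit g = true), w i g by
      rw [hset]
      rw [h5] at c3
      exact ⟨lt_of_lt_of_le h0 c3, h.trans (Nat.mul_le_mul_left _ c3)⟩
    rw [valR_eq, Finset.sum_filter, ← Fin.sum_univ_eq_sum_range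
      (fun g => if (511 ^^^ (z ||| tt i z)).testBit g = true then w i g else 0)]

theorem no_pmmsA (A : Fin 9 → Fin 3) : ∃ i j : Fin 3, i ≠ j ∧
    ∃ T ⊆ Finset.univ.filter (fun g => A g = i ∨ A g = j),
      ((∑ g ∈ Finset.univ.filter (fun g => A g = i), w i g) < ∑ g ∈ T, w i g ∧
        569 * (∑ g ∈ Finset.univ.filter (fun g => A g = i), w i g) ≤ 568 * ∑ g ∈ T, w i g) ∧
      (∑ g ∈ Finset.univ.filter (fun g => A g = i), w i g) <
        ∑ g ∈ Finset.univ.filter (fun g => A g = i ∨ A g = j) \ T, w i g ∧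
      569 * (∑ g ∈ Finset.univ.filter (fun g => A g = i), w i g) ≤
        568 * ∑ g ∈ Finset.univ.filter (fun g => A g = i ∨ A g = j) \ T, w i g := by
  have h := chkA_spec (ext A) (ext_cases A) 9 0 0 0 0 0 0 chkA_ok
  simp only [zero_add] at h
  simp only [tstA, lessA, Bool.or_eq_true, Bool.and_eq_true, Nat.blt_eq, Nat.ble_eq] at h
  rcases h with h | h | h | h | h | h
  · exact ⟨0, 1, by decide, violA A 0 1 2 (by decide) (by decide) (by decide) h.1 h.2⟩
  · exact ⟨0, 2, by decide, violA A 0 2 1 (by decide) (by decide) (by decide) h.1 h.2⟩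
  · exact ⟨1, 0, by decide, violA A 1 0 2 (by decide) (by decide) (by decide) h.1 h.2⟩
  · exact ⟨1, 2, by decide, violA A 1 2 0 (by decide) (by decide) (by decide) h.1 h.2⟩
  · exact ⟨2, 0, by decide, violA A 2 0 1 (by decide) (by decide) (by decide) h.1 h.2⟩
  · exact ⟨2, 1, by decide, violA A 2 1 0 (by decide) (by decide) (by decide) h.1 h.2⟩

end Pool.Agent.PMMSalpha
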